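import Mathlib
import Pool.Agent.H660R3.LorDefs
import Pool.Agent.H660R3.SolMain

/-!
# A closed Lorentzian 3-manifold without closed geodesics

Definitions are in `Pool.Agent.H660R3.LorDefs`. The example: let `μ = φ²` be the square of the golden ratio
and let the group `Γ` of the maps `(x,y,z) ↦ (μ^{-k} x + (a+bψ), μ^k y + (a+bφ), z + k)`, `a b k ∈ ℤ`, act on
`ℝ³`. The metric `-μ^{2z} dx² + 2 μ^{-z} dy dz` is `Γ`-invariant and descends to the compact quotient, a
torus bundle over the circle with hyperbolic monodromy. Along a geodesic `z'' = (log μ) z'²`, so `z' = 0` if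
the geodesic is periodic; then `μ^z x'` is constant and `(μ^{-z} y')' = -(log μ) (μ^z x')²`, so `x' = 0` too,
and the geodesic runs in a leaf of the irrational foliation of a torus fibre, where it cannot close up.
-/
open scoped ContDiff Manifold
open Pool.Agent.H660R3

namespace Pool.Agent.Results.MP_aba202_gt.NoClosedGeodesic

/-- There are a compact connected (Hausdorff, second countable) smooth 3-manifold without boundary and a
smooth Lorentzian metric on it that has no closed geodesic of any causal type. -/
theorem result : ∃ (M : Type) (_ : TopologicalSpace M)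
    (_ : ChartedSpace (EuclideanSpace ℝ (Fin 3)) M),
    IsManifold (𝓡 3) ∞ M ∧ T2Space M ∧ SecondCountableTopology M ∧ CompactSpace M ∧ ConnectedSpace M ∧
    ∃ g : LorentzMetric 3 M, ∀ (γ : ℝ → M) (L : ℝ), ¬ IsClosedGeodesic g γ L :=
  ⟨QQ Sol.Gam, inferInstance, inferInstance, inferInstance, inferInstance, inferInstance, inferInstance,
    inferInstance, Sol.gSol, Sol.no_closed⟩

end Pool.Agent.Results.MP_aba202_gt.NoClosedGeodesic
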